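import Mathlib

/-!
# Flow package for smooth velocities, periodic in `x`, compactly supported in time: definitions

`Vel u`: `u : ℝ × ℝ → ℝ` (arguments `(t,x)`) is smooth, `2π`-periodic in `x`, zero for large `|t|`.
`px u`: derivative in `x`.  `Flow u X`: `X : ℝ → ℝ → ℝ` (arguments `t`, label `α`) is the flow.
`lam u X t α = ∫_0^t u_x(s, X s α) ds` (so `∂_α X = exp(lam)`),
`lma u X t α = ∫_0^t u_xx(s, X s α) exp(lam u X s α) ds` (so `∂_α lam = lma`).
-/

set_option autoImplicit false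
open Real Set MeasureTheory

namespace Pool.Agent.H45.FL

/-- smooth velocity field, periodic in `x`, compactly supported in time -/
structure Vel (u : ℝ × ℝ → ℝ) : Prop where
  sm : ContDiff ℝ ((⊤ : ℕ∞) : WithTop ℕ∞) u
  per : ∀ t x : ℝ, u (t, x + 2 * π) = u (t, x)
  supp : ∃ M : ℝ, ∀ t x : ℝ, M ≤ |t| → u (t, x) = 0

/-- derivative in `x` -/
noncomputable def px (u : ℝ × ℝ → ℝ) (p : ℝ × ℝ) : ℝ := deriv (fun y : ℝ => u (p.1, y)) p.2

/-- derivative in `t` -/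
noncomputable def pt (u : ℝ × ℝ → ℝ) (p : ℝ × ℝ) : ℝ := deriv (fun s : ℝ => u (s, p.2)) p.1

/-- `X` is the flow of `u` -/
structure Flow (u : ℝ × ℝ → ℝ) (X : ℝ → ℝ → ℝ) : Prop where
  init : ∀ α, X 0 α = α
  ode : ∀ t α, HasDerivAt (fun s => X s α) (u (t, X t α)) t

/-- logarithm of the flow gradient -/
noncomputable def lam (u : ℝ × ℝ → ℝ) (X : ℝ → ℝ → ℝ) (t α : ℝ) : ℝ :=
  ∫ s in (0:ℝ)..t, px u (s, X s α)

/-- derivative of `lam` with respect to the label -/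
noncomputable def lma (u : ℝ × ℝ → ℝ) (X : ℝ → ℝ → ℝ) (t α : ℝ) : ℝ :=
  ∫ s in (0:ℝ)..t, px (px u) (s, X s α) * Real.exp (lam u X s α)

end Pool.Agent.H45.FL
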