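import Pool.Agent.H45.FL.VelLem
import Pool.Agent.H45.DGL.Chi
import Pool.Agent.H51.DG.Defs

/-! JOB FL-05 (uses the stub `chi_exists`, now proved).  Cut-off of a solution in time.

PROOF.  `Sol a b w u`, `a < 0`, `0 ≤ T' < b`.  `ε = min (-a) (b - T') / 2`, `χ, ρ` from
`Pool.Agent.H45.DGL.chi_exists 0 T' ε`, `χ t ∈ [-ε, T'+ε] ⊆ Ioo a b`.
`W (t,x) = w (χ t, x)`, `U (t,x) = ρ t * u (χ t, x)`.  `χ` is smooth (its derivative `ρ` is smooth:
`contDiff_infty_iff_deriv`), so `W`, `U` are smooth (`ContDiffOn` on the open strip composed with a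
smooth map into the strip).  `∂_t W = ρ t * w_t(χ t, x)` (chain rule), so
`∂_t W + U W_x = ρ (w_t + u w_x) = ρ w u_x = W U_x`.  Support of `U`: that of `ρ`.
On `[0,T']`: `ρ = 1`, `χ t = t`. -/

set_option autoImplicit false
open Real Set MeasureTheory

namespace Pool.Agent.H45.FL

/-- smooth solution of `w_t + u w_x = w u_x` for all times with a compactly supported velocity -/
structure CSol (w u : ℝ × ℝ → ℝ) : Prop where
  vel : Vel u
  sm : ContDiff ℝ ((⊤ : ℕ∞) : WithTop ℕ∞) w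
  per : ∀ t x : ℝ, w (t, x + 2 * π) = w (t, x)
  pde : ∀ p : ℝ × ℝ, pt w p + u p * px w p = w p * px u p

theorem cut_sol (a b : ℝ) (w u : ℝ × ℝ → ℝ) (h : Pool.Agent.H51.DG.Sol a b w u) (ha : a < 0)
    (T' : ℝ) (h0 : 0 ≤ T') (hb : T' < b) :
    ∃ W U : ℝ × ℝ → ℝ, CSol W U ∧ (∀ t ∈ Icc 0 T', ∀ x : ℝ, W (t, x) = w (t, x)) ∧
      (∀ t ∈ Icc 0 T', ∀ x : ℝ, U (t, x) = u (t, x)) := by
  have hε : 0 < min (-a) (b - T') / 2 := by
    have : 0 < min (-a) (b - T') := lt_min (by linarith) (by linarith)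
    linarith
  obtain ⟨χ, ρ, hρ, hcs, hχ, h1, hχI⟩ :=
    Pool.Agent.H45.DGL.chi_exists 0 T' (min (-a) (b - T') / 2) h0 hε
  have hIn : ∀ t, χ t ∈ Ioo a b := by
    intro t
    have h2 := hχI t
    have h3 : min (-a) (b - T') ≤ -a := min_le_left _ _
    have h4 : min (-a) (b - T') ≤ b - T' := min_le_right _ _
    constructor <;> linarith [h2.1, h2.2]
  have hderiv : deriv χ = ρ := funext fun t => (hχ t).deriv
  have hχs : ContDiff ℝ ((⊤ : ℕ∞) : WithTop ℕ∞) χ := by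
    rw [contDiff_infty_iff_deriv]
    refine ⟨fun t => (hχ t).differentiableAt, ?_⟩
    rw [hderiv]
    exact hρ
  have hmap : ContDiff ℝ ((⊤ : ℕ∞) : WithTop ℕ∞) (fun p : ℝ × ℝ => (χ p.1, p.2)) :=
    (hχs.comp contDiff_fst).prodMk contDiff_snd
  have hopen : IsOpen (Ioo a b ×ˢ (univ : Set ℝ)) := isOpen_Ioo.prod isOpen_univ
  have hWs : ContDiff ℝ ((⊤ : ℕ∞) : WithTop ℕ∞) (fun p : ℝ × ℝ => w (χ p.1, p.2)) :=
    h.sw.comp_contDiff hmap fun p => ⟨hIn p.1, mem_univ _⟩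
  have hus : ContDiff ℝ ((⊤ : ℕ∞) : WithTop ℕ∞) (fun p : ℝ × ℝ => u (χ p.1, p.2)) :=
    h.su.comp_contDiff hmap fun p => ⟨hIn p.1, mem_univ _⟩
  have hUs : ContDiff ℝ ((⊤ : ℕ∞) : WithTop ℕ∞) (fun p : ℝ × ℝ => ρ p.1 * u (χ p.1, p.2)) :=
    (hρ.comp contDiff_fst).mul hus
  refine ⟨fun p => w (χ p.1, p.2), fun p => ρ p.1 * u (χ p.1, p.2), ⟨⟨hUs, ?_, ?_⟩, hWs, ?_, ?_⟩,
    ?_, ?_⟩
  · intro t x
    show ρ t * u (χ t, x + 2 * π) = ρ t * u (χ t, x)
    rw [h.pu _ (hIn t) x]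
  · obtain ⟨C, hC⟩ := isBounded_iff_forall_norm_le.mp hcs.isCompact.isBounded
    refine ⟨C + 1, fun t x ht => ?_⟩
    show ρ t * u (χ t, x) = 0
    have hnot : t ∉ tsupport ρ := by
      intro hmem
      have := hC t hmem
      rw [Real.norm_eq_abs] at this
      linarith
    rw [image_eq_zero_of_notMem_tsupport hnot, zero_mul]
  · intro t x
    show w (χ t, x + 2 * π) = w (χ t, x)
    exact h.pw _ (hIn t) x
  · rintro ⟨t, x⟩
    have hmem : (χ t, x) ∈ Ioo a b ×ˢ (univ : Set ℝ) := ⟨hIn t, mem_univ _⟩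
    have hdiff : DifferentiableAt ℝ w (χ t, x) :=
      (h.sw.contDiffAt (hopen.mem_nhds hmem)).differentiableAt (by simp)
    have hin : DifferentiableAt ℝ (fun s : ℝ => w (s, x)) (χ t) := by
      have : DifferentiableAt ℝ (fun s : ℝ => (s, x)) (χ t) :=
        differentiableAt_id.prodMk (differentiableAt_const x)
      exact DifferentiableAt.comp (χ t) (f := fun s : ℝ => (s, x)) (g := w) hdiff this
    have e1 : pt (fun p : ℝ × ℝ => w (χ p.1, p.2)) (t, x) =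
        deriv (fun s : ℝ => w (s, x)) (χ t) * ρ t := by
      show deriv (fun s : ℝ => w (χ s, x)) t = _
      have := HasDerivAt.comp t (h := χ) (h₂ := fun s : ℝ => w (s, x)) hin.hasDerivAt (hχ t)
      exact this.deriv
    have e2 : px (fun p : ℝ × ℝ => ρ p.1 * u (χ p.1, p.2)) (t, x) =
        ρ t * deriv (fun y : ℝ => u (χ t, y)) x := by
      show deriv (fun y : ℝ => ρ t * u (χ t, y)) x = _
      rw [deriv_const_mul_field]
    have e3 : px (fun p : ℝ × ℝ => w (χ p.1, p.2)) (t, x) = deriv (fun y : ℝ => w (χ t, y)) x := rfl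
    rw [e1, e2, e3]
    show deriv (fun s : ℝ => w (s, x)) (χ t) * ρ t + ρ t * u (χ t, x) *
      deriv (fun y : ℝ => w (χ t, y)) x = w (χ t, x) * (ρ t * deriv (fun y : ℝ => u (χ t, y)) x)
    have hp := h.pde (χ t) (hIn t) x
    linear_combination ρ t * hp
  · intro t ht x
    show w (χ t, x) = w (t, x)
    rw [(h1 t ht).2]
  · intro t ht x
    show ρ t * u (χ t, x) = u (t, x)
    rw [(h1 t ht).2, (h1 t ht).1, one_mul]

end Pool.Agent.H45.FL
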