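import Pool.Agent.H45.FL.VelLem
import Pool.Agent.H58.DGL.Ode

/-! JOB FL-02 (uses the stubs `Vel.lipschitz`, `Vel.bdd`, `Vel.lip_x`).  Existence and uniqueness of trajectories, flow.

* `traj_exists`: apply `Pool.Agent.H58.DGL.ode_global` to the field `(s,x) ↦ (1, u (s,x))` on
  `ℝ × ℝ` (Lipschitz, bounded), initial point `(t0,x0)`: first component `t0 + τ`; then
  `Y t = (α (t - t0)).2`.
* `traj_unique`: `ODE_solution_unique_univ` (Lipschitz in `x` uniformly in `t`).
* `flow_exists`: `choose`.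
* `Flow.mono`: two trajectories that meet coincide (`traj_unique`), so `X t β - X t α ≠ 0` for all
  `t` if `α < β`; continuous in `t`, positive at `t = 0`, hence positive (intermediate values).
* `Flow.per`: `s ↦ X s α + 2π` is the trajectory through `(0, α + 2π)`.
* `Flow.surj`: the trajectory `Z` through `(t,y)`; `α = Z 0`. -/

set_option autoImplicit false
open Real Set MeasureTheory

namespace Pool.Agent.H45.FL

lemma traj_exists {u : ℝ × ℝ → ℝ} (h : Vel u) (t0 x0 : ℝ) :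
    ∃ Y : ℝ → ℝ, Y t0 = x0 ∧ ∀ t, HasDerivAt Y (u (t, Y t)) t := by
  obtain ⟨K, hK⟩ := h.lipschitz
  obtain ⟨L, hL0, hL⟩ := h.bdd
  have hf : LipschitzWith (max 0 K) (fun p : ℝ × ℝ => ((1 : ℝ), u p)) :=
    (LipschitzWith.const (1 : ℝ)).prodMk hK
  have hb : ∀ p : ℝ × ℝ, ‖((1 : ℝ), u p)‖ ≤ ((⟨max 1 L, by positivity⟩ : NNReal) : ℝ) := by
    intro p
    rw [Prod.norm_def]
    show max ‖(1 : ℝ)‖ ‖u p‖ ≤ max 1 L
    apply max_le_max
    · simp
    · rw [Real.norm_eq_abs]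
      exact hL p
  obtain ⟨α, h0, hα⟩ := Pool.Agent.H58.DGL.ode_global hf hb (t0, x0)
  have h1 : ∀ t, HasDerivAt (fun s => (α s).1) 1 t := fun t => (hα t).fst
  have h2 : ∀ t, HasDerivAt (fun s => (α s).2) (u (α t)) t := fun t => (hα t).snd
  have h3 : ∀ t, (α t).1 = t0 + t := by
    intro t
    have h4 : ∀ s, HasDerivAt (fun s => (α s).1 - s) 0 s := by
      intro s
      have := (h1 s).sub (hasDerivAt_id s)
      rw [sub_self] at this
      exact this
    have h5 := is_const_of_deriv_eq_zero (f := fun s => (α s).1 - s)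
      (fun s => (h4 s).differentiableAt) (fun s => (h4 s).deriv) t 0
    simp only [h0, sub_zero] at h5
    linarith
  refine ⟨fun t => (α (t - t0)).2, by simp [h0], fun t => ?_⟩
  have h4 : HasDerivAt (fun s : ℝ => s - t0) 1 t := (hasDerivAt_id t).sub_const t0
  have h5 := (h2 (t - t0)).comp t h4
  rw [mul_one] at h5
  have h6 : α (t - t0) = (t, (α (t - t0)).2) := by
    refine Prod.ext ?_ rfl
    rw [h3]
    show t0 + (t - t0) = t
    ring
  show HasDerivAt (fun t => (α (t - t0)).2) (u (t, (α (t - t0)).2)) t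
  rw [← h6]
  exact h5

lemma traj_unique {u : ℝ × ℝ → ℝ} (h : Vel u) (Y Z : ℝ → ℝ)
    (hY : ∀ t, HasDerivAt Y (u (t, Y t)) t) (hZ : ∀ t, HasDerivAt Z (u (t, Z t)) t) (t0 : ℝ)
    (h0 : Y t0 = Z t0) : ∀ t, Y t = Z t := by
  obtain ⟨K, hK0, hK⟩ := h.lip_x
  have hv : ∀ t : ℝ, LipschitzOnWith ⟨K, hK0⟩ (fun x => u (t, x)) univ := by
    intro t
    refine LipschitzWith.lipschitzOnWith ?_
    refine LipschitzWith.of_dist_le_mul fun x y => ?_
    rw [Real.dist_eq, Real.dist_eq]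
    exact hK t y x
  have := ODE_solution_unique_univ (v := fun t x => u (t, x)) (s := fun _ => univ)
    (K := ⟨K, hK0⟩) (f := Y) (g := Z) (t₀ := t0) hv
    (fun t => ⟨hY t, mem_univ _⟩) (fun t => ⟨hZ t, mem_univ _⟩) h0
  intro t
  rw [this]

theorem flow_exists {u : ℝ × ℝ → ℝ} (h : Vel u) : ∃ X : ℝ → ℝ → ℝ, Flow u X := by
  choose Y h0 hY using fun α : ℝ => traj_exists h 0 α
  exact ⟨fun t α => Y α t, ⟨h0, fun t α => hY α t⟩⟩

lemma Flow.mono {u : ℝ × ℝ → ℝ} {X : ℝ → ℝ → ℝ} (h : Vel u) (hX : Flow u X) (t : ℝ) :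
    StrictMono (X t) := by
  intro α β hαβ
  have hne : ∀ s, X s β - X s α ≠ 0 := by
    intro s hs
    have h1 := traj_unique h (fun s => X s β) (fun s => X s α) (fun t => hX.ode t β)
      (fun t => hX.ode t α) s (sub_eq_zero.1 hs) 0
    simp only [hX.init] at h1
    exact hαβ.ne' h1
  have hc : Continuous fun s => X s β - X s α :=
    (continuous_iff_continuousAt.2 fun s => (hX.ode s β).continuousAt).sub
      (continuous_iff_continuousAt.2 fun s => (hX.ode s α).continuousAt)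
  by_contra hcon
  have h1 : X t β - X t α ≤ 0 := by
    have := not_lt.1 hcon
    linarith
  have h2 : 0 < X 0 β - X 0 α := by
    rw [hX.init, hX.init]
    linarith
  have h3 : (0 : ℝ) ∈ (fun s => X s β - X s α) '' uIcc t 0 := by
    apply intermediate_value_uIcc hc.continuousOn
    rw [mem_uIcc]
    exact Or.inl ⟨h1, h2.le⟩
  obtain ⟨s, -, hs⟩ := h3
  exact hne s hs

lemma Flow.per {u : ℝ × ℝ → ℝ} {X : ℝ → ℝ → ℝ} (h : Vel u) (hX : Flow u X) (t α : ℝ) :
    X t (α + 2 * π) = X t α + 2 * π := by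
  refine traj_unique h (fun s => X s (α + 2 * π)) (fun s => X s α + 2 * π)
    (fun t => hX.ode t (α + 2 * π)) (fun t => ?_) 0 ?_ t
  · have h1 := (hX.ode t α).add_const (2 * π)
    show HasDerivAt (fun s => X s α + 2 * π) (u (t, X t α + 2 * π)) t
    rw [h.per]
    exact h1
  · show X 0 (α + 2 * π) = X 0 α + 2 * π
    rw [hX.init, hX.init]

lemma Flow.surj {u : ℝ × ℝ → ℝ} {X : ℝ → ℝ → ℝ} (h : Vel u) (hX : Flow u X) (t : ℝ) :
    Function.Surjective (X t) := by
  intro y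
  obtain ⟨Z, hZt, hZ⟩ := traj_exists h t y
  refine ⟨Z 0, ?_⟩
  have h1 := traj_unique h (fun s => X s (Z 0)) Z (fun t => hX.ode t (Z 0)) hZ 0
    (by show X 0 (Z 0) = Z 0; rw [hX.init]) t
  rw [← hZt]
  exact h1

end Pool.Agent.H45.FL
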