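import Pool.Agent.H45.FL.Exist

/-! JOB FL-03 (uses the stubs of `VelLem.lean`, `Exist.lean`).  Differentiability of the flow in the label.

* `Flow.cont`: `|X t β - X t α| ≤ exp(K |t|) |β - α|` (Gronwall, `dist_le_of_trajectories_ODE`; for
  negative `t` apply it to the reversed trajectories `s ↦ X (-s)`), and `|X t α - X s α| ≤ K' |t-s|`:
  joint continuity.
* `lam_hasDerivAt_t`: the integrand `s ↦ px u (s, X s α)` is continuous; fundamental theorem
  (`intervalIntegral.integral_hasDerivAt_right` or `Continuous.deriv_integral`).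
* `Flow.hasDerivAt_label` (`t ≥ 0`): `r s = X s β - X s α - (β - α) exp(lam s α)` satisfies `r 0 = 0`,
  `r' = [u(s,X s β) - u(s,X s α) - u_x(s,X s α)(X s β - X s α)] + u_x(s,X s α) r`,
  `|r'| ≤ K₂ (X s β - X s α)² + K |r| ≤ K |r| + K₂ exp(2 K t) (β-α)²` on `[0,t]` (`Vel.taylor`), so by
  Gronwall (`norm_le_gronwallBound_of_norm_deriv_right_le`) `|r t| ≤ C(t) (β-α)²`
  (`gronwallBound 0 K ε t ≤` const·ε), hence the derivative
  (`hasDerivAt_iff_isLittleO` / a quadratic remainder). -/

set_option autoImplicit false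
open Real Set MeasureTheory

namespace Pool.Agent.H45.FL

/-- the Gronwall inequality for the difference of two trajectories -/
lemma grad_aux {v : ℝ → ℝ → ℝ} {K : ℝ} (hv : ∀ t x y, |v t y - v t x| ≤ K * |y - x|)
    {f g : ℝ → ℝ} (hf : ∀ t, HasDerivAt f (v t (f t)) t) (hg : ∀ t, HasDerivAt g (v t (g t)) t)
    (t : ℝ) (ht : 0 ≤ t) : |f t - g t| ≤ Real.exp (K * t) * |f 0 - g 0| := by
  have hD : ∀ s, HasDerivAt (fun s => f s - g s) (v s (f s) - v s (g s)) s := fun s =>
    (hf s).sub (hg s)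
  have h1 := norm_le_gronwallBound_of_norm_deriv_right_le (f := fun s => f s - g s)
    (f' := fun s => v s (f s) - v s (g s)) (δ := |f 0 - g 0|) (K := K) (ε := 0) (a := 0) (b := t)
    (fun s _ => (hD s).continuousAt.continuousWithinAt)
    (fun s _ => (hD s).hasDerivWithinAt) (le_of_eq (Real.norm_eq_abs _))
    (fun s _ => by
      rw [Real.norm_eq_abs, Real.norm_eq_abs, add_zero]
      exact hv s (g s) (f s)) t ⟨ht, le_rfl⟩
  rw [gronwallBound_ε0, sub_zero, Real.norm_eq_abs] at h1
  linarith [mul_comm (Real.exp (K * t)) |f 0 - g 0|]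

lemma Flow.lip_label {u : ℝ × ℝ → ℝ} {X : ℝ → ℝ → ℝ} (h : Vel u) (hX : Flow u X) :
    ∃ K : ℝ, 0 ≤ K ∧ ∀ t α β : ℝ, |X t β - X t α| ≤ Real.exp (K * |t|) * |β - α| := by
  obtain ⟨K, hK0, hK⟩ := h.lip_x
  refine ⟨K, hK0, fun t α β => ?_⟩
  rcases le_total 0 t with ht | ht
  · have h1 := grad_aux (v := fun t x => u (t, x)) (K := K) (fun t x y => hK t x y)
      (hX.ode · β) (hX.ode · α) t ht
    rw [hX.init, hX.init] at h1
    rwa [abs_of_nonneg ht]
  · have hr : ∀ γ s, HasDerivAt (fun s => X (-s) γ) (-u (-s, X (-s) γ)) s := by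
      intro γ s
      have h2 := (hX.ode (-s) γ).scomp s ((hasDerivAt_id s).neg)
      have h3 : (-1 : ℝ) • u (-s, X (-s) γ) = -u (-s, X (-s) γ) := by
        rw [smul_eq_mul]; ring
      rw [h3] at h2
      exact h2
    have h1 := grad_aux (v := fun t x => -u (-t, x)) (K := K)
      (fun t x y => by
        have h4 := hK (-t) x y
        have h5 : -u (-t, y) - -u (-t, x) = -(u (-t, y) - u (-t, x)) := by ring
        show |-u (-t, y) - -u (-t, x)| ≤ K * |y - x|
        rw [h5, abs_neg]
        exact h4)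
      (f := fun s => X (-s) β) (g := fun s => X (-s) α)
      (hr β) (hr α) (-t) (by linarith)
    simp only [neg_neg, neg_zero] at h1
    rw [hX.init, hX.init] at h1
    rwa [abs_of_nonpos ht]

lemma grad_cont_t {u : ℝ × ℝ → ℝ} {X : ℝ → ℝ → ℝ} (hX : Flow u X) (α : ℝ) :
    Continuous fun s => X s α :=
  continuous_iff_continuousAt.2 fun t => (hX.ode t α).continuousAt

lemma Flow.cont {u : ℝ × ℝ → ℝ} {X : ℝ → ℝ → ℝ} (h : Vel u) (hX : Flow u X) :
    Continuous fun p : ℝ × ℝ => X p.1 p.2 := by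
  obtain ⟨K, hK0, hK⟩ := hX.lip_label h
  rw [continuous_iff_continuousAt]
  rintro ⟨t, α⟩
  unfold ContinuousAt
  rw [tendsto_iff_norm_sub_tendsto_zero]
  have hlim : Filter.Tendsto
      (fun p : ℝ × ℝ => Real.exp (K * |p.1|) * |p.2 - α| + |X p.1 α - X t α|)
      (nhds (t, α)) (nhds 0) := by
    have hc : Continuous
        (fun p : ℝ × ℝ => Real.exp (K * |p.1|) * |p.2 - α| + |X p.1 α - X t α|) := by
      have h1 := (grad_cont_t hX α).comp (continuous_fst (X := ℝ) (Y := ℝ))
      have h1' : Continuous (fun p : ℝ × ℝ => X p.1 α) := h1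
      exact ((Real.continuous_exp.comp (continuous_const.mul continuous_fst.abs)).mul
        ((continuous_snd.sub continuous_const).abs)).add ((h1'.sub continuous_const).abs)
    have h2 := hc.tendsto (t, α)
    simpa using h2
  refine squeeze_zero (fun p => norm_nonneg _) (fun p => ?_) hlim
  rw [Real.norm_eq_abs]
  have h3 : X p.1 p.2 - X t α = (X p.1 p.2 - X p.1 α) + (X p.1 α - X t α) := by ring
  show |X p.1 p.2 - X t α| ≤ _
  rw [h3]
  exact (abs_add_le _ _).trans (by linarith [hK p.1 α p.2])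

lemma lam_hasDerivAt_t {u : ℝ × ℝ → ℝ} {X : ℝ → ℝ → ℝ} (h : Vel u) (hX : Flow u X) (t α : ℝ) :
    HasDerivAt (fun s => lam u X s α) (px u (t, X t α)) t := by
  have hc : Continuous fun s => px u (s, X s α) :=
    (smooth_px u h.sm).continuous.comp (continuous_id.prodMk (grad_cont_t hX α))
  exact (hc.integral_hasStrictDerivAt 0 t).hasDerivAt

theorem Flow.hasDerivAt_label {u : ℝ × ℝ → ℝ} {X : ℝ → ℝ → ℝ} (h : Vel u) (hX : Flow u X)
    (t α : ℝ) (ht : 0 ≤ t) : HasDerivAt (fun β => X t β) (Real.exp (lam u X t α)) α := by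
  obtain ⟨K₁, hK₁, hlip⟩ := hX.lip_label h
  obtain ⟨K₂, hK₂, htay⟩ := h.taylor
  obtain ⟨K, hK, hpx⟩ := h.px.bdd
  have hKp : (0 : ℝ) < K + 1 := by linarith
  set C : ℝ := K₂ * Real.exp (K₁ * t) ^ 2 / (K + 1) * (Real.exp ((K + 1) * t) - 1) with hC
  have key : ∀ β, |X t β - X t α - (β - α) * Real.exp (lam u X t α)| ≤ C * (β - α) ^ 2 := by
    intro β
    have hlam : ∀ s, HasDerivAt (fun s => Real.exp (lam u X s α))
        (Real.exp (lam u X s α) * px u (s, X s α)) s := fun s => (lam_hasDerivAt_t h hX s α).exp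
    have hr : ∀ s, HasDerivAt
        (fun s => X s β - X s α - (β - α) * Real.exp (lam u X s α))
        (u (s, X s β) - u (s, X s α) - (β - α) * (Real.exp (lam u X s α) * px u (s, X s α))) s :=
      fun s => ((hX.ode s β).sub (hX.ode s α)).sub ((hlam s).const_mul (β - α))
    have h0 : ‖X 0 β - X 0 α - (β - α) * Real.exp (lam u X 0 α)‖ ≤ 0 := by
      have h01 : lam u X 0 α = 0 := by unfold lam; exact intervalIntegral.integral_same
      rw [hX.init, hX.init, h01, Real.exp_zero, mul_one, sub_self, norm_zero]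
    have h1 := norm_le_gronwallBound_of_norm_deriv_right_le
      (f := fun s => X s β - X s α - (β - α) * Real.exp (lam u X s α))
      (f' := fun s => u (s, X s β) - u (s, X s α) -
        (β - α) * (Real.exp (lam u X s α) * px u (s, X s α)))
      (δ := 0) (K := K + 1) (ε := K₂ * Real.exp (K₁ * t) ^ 2 * (β - α) ^ 2) (a := 0) (b := t)
      (fun s _ => (hr s).continuousAt.continuousWithinAt)
      (fun s _ => (hr s).hasDerivWithinAt) h0
      (fun s hs => by
        rw [Real.norm_eq_abs, Real.norm_eq_abs]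
        set r := X s β - X s α - (β - α) * Real.exp (lam u X s α) with hrdef
        have e1 : u (s, X s β) - u (s, X s α) -
            (β - α) * (Real.exp (lam u X s α) * px u (s, X s α)) =
            (u (s, X s β) - u (s, X s α) - px u (s, X s α) * (X s β - X s α)) +
              px u (s, X s α) * r := by rw [hrdef]; ring
        rw [e1]
        have e2 := htay s (X s α) (X s β)
        have e3 : |px u (s, X s α) * r| ≤ K * |r| := by
          rw [abs_mul]
          exact mul_le_mul_of_nonneg_right (hpx _) (abs_nonneg _)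
        have e4 : (X s β - X s α) ^ 2 ≤ Real.exp (K₁ * t) ^ 2 * (β - α) ^ 2 := by
          have e5 := hlip s α β
          have e6 : Real.exp (K₁ * |s|) ≤ Real.exp (K₁ * t) := by
            apply Real.exp_le_exp.2
            rw [abs_of_nonneg hs.1]
            exact mul_le_mul_of_nonneg_left hs.2.le hK₁
          have e7 : |X s β - X s α| ≤ Real.exp (K₁ * t) * |β - α| :=
            e5.trans (mul_le_mul_of_nonneg_right e6 (abs_nonneg _))
          have e8 : |X s β - X s α| ^ 2 ≤ (Real.exp (K₁ * t) * |β - α|) ^ 2 :=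
            pow_le_pow_left₀ (abs_nonneg _) e7 2
          rw [sq_abs, mul_pow, sq_abs] at e8
          exact e8
        have e9 : K₂ * (X s β - X s α) ^ 2 ≤ K₂ * (Real.exp (K₁ * t) ^ 2 * (β - α) ^ 2) :=
          mul_le_mul_of_nonneg_left e4 hK₂
        have e10 := abs_nonneg r
        calc |(u (s, X s β) - u (s, X s α) - px u (s, X s α) * (X s β - X s α)) +
              px u (s, X s α) * r| ≤ _ := abs_add_le _ _
          _ ≤ K₂ * (X s β - X s α) ^ 2 + K * |r| := add_le_add e2 e3
          _ ≤ (K + 1) * |r| + K₂ * Real.exp (K₁ * t) ^ 2 * (β - α) ^ 2 := by nlinarith)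
      t ⟨ht, le_rfl⟩
    rw [gronwallBound_of_K_ne_0 hKp.ne', Real.norm_eq_abs] at h1
    simp only [zero_mul, zero_add, sub_zero] at h1
    calc _ ≤ _ := h1
      _ = C * (β - α) ^ 2 := by rw [hC]; ring
  rw [hasDerivAt_iff_isLittleO]
  refine Asymptotics.IsBigO.trans_isLittleO (g := fun β => ‖β - α‖ ^ 2) ?_
    (Asymptotics.isLittleO_pow_sub_sub α (by norm_num))
  refine Asymptotics.IsBigO.of_bound C (Filter.Eventually.of_forall fun β => ?_)
  rw [Real.norm_eq_abs, Real.norm_eq_abs, abs_of_nonneg (by positivity : (0:ℝ) ≤ ‖β - α‖ ^ 2),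
    Real.norm_eq_abs, sq_abs, smul_eq_mul]
  exact key β

end Pool.Agent.H45.FL
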