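import Pool.Agent.H45.FL.Grad

/-! JOB FL-04 (uses the stubs of `Grad.lean`).  The label derivative of `lam`.

* `lam_cont`: `(t,α) ↦ lam u X t α` is continuous: `continuous_parametric_intervalIntegral_of_continuous`
  (jointly continuous integrand `px u (s, X s α)`).
* `lma_hasDerivAt_t`: fundamental theorem, continuous integrand.
* `lam_hasDerivAt_label` (`t ≥ 0`): `intervalIntegral.hasDerivAt_integral_of_dominated_loc_of_deriv_le`:
  `∂_β px u (s, X s β) = px (px u) (s, X s β) * exp(lam s β)` (`hasDerivAt_px` for `px u` composed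
  with `Flow.hasDerivAt_label`, `s ∈ [0,t]`), bounded by `K₂ exp(K t)` since `|lam| ≤ K t`.
* `lma_cont`: as for `lam_cont`.
* periodicity: `X s (α+2π) = X s α + 2π`, `px u` periodic. -/

set_option autoImplicit false
open Real Set MeasureTheory

namespace Pool.Agent.H45.FL

private lemma Lma_pxc {u : ℝ × ℝ → ℝ} {X : ℝ → ℝ → ℝ} (h : Vel u) (hX : Flow u X) :
    Continuous fun p : (ℝ × ℝ) × ℝ => px u (p.2, X p.2 p.1.2) := by
  have h1 : Continuous (px u) := (smooth_px u h.sm).continuous
  have h2 : Continuous fun p : (ℝ × ℝ) × ℝ => X p.2 p.1.2 :=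
    (Flow.cont h hX).comp (continuous_snd.prodMk (continuous_snd.comp continuous_fst))
  exact h1.comp (continuous_snd.prodMk h2)

lemma lam_cont {u : ℝ × ℝ → ℝ} {X : ℝ → ℝ → ℝ} (h : Vel u) (hX : Flow u X) :
    Continuous fun p : ℝ × ℝ => lam u X p.1 p.2 := by
  exact intervalIntegral.continuous_parametric_intervalIntegral_of_continuous (Lma_pxc h hX)
    continuous_fst

lemma lam_zero (u : ℝ × ℝ → ℝ) (X : ℝ → ℝ → ℝ) (α : ℝ) : lam u X 0 α = 0 := by
  simp [lam]

lemma lma_zero (u : ℝ × ℝ → ℝ) (X : ℝ → ℝ → ℝ) (α : ℝ) : lma u X 0 α = 0 := by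
  simp [lma]

lemma lma_hasDerivAt_t {u : ℝ × ℝ → ℝ} {X : ℝ → ℝ → ℝ} (h : Vel u) (hX : Flow u X) (t α : ℝ) :
    HasDerivAt (fun s => lma u X s α) (px (px u) (t, X t α) * Real.exp (lam u X t α)) t := by
  have h1 : Continuous (px (px u)) := (smooth_px _ (smooth_px u h.sm)).continuous
  have h2 : Continuous fun s : ℝ => X s α :=
    (Flow.cont h hX).comp (continuous_id.prodMk continuous_const)
  have h3 : Continuous fun s : ℝ => lam u X s α :=
    (lam_cont h hX).comp (continuous_id.prodMk continuous_const)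
  have h4 : Continuous fun s : ℝ => px (px u) (s, X s α) * Real.exp (lam u X s α) :=
    (h1.comp (continuous_id.prodMk h2)).mul (Real.continuous_exp.comp h3)
  exact (h4.integral_hasStrictDerivAt 0 t).hasDerivAt

theorem lam_hasDerivAt_label {u : ℝ × ℝ → ℝ} {X : ℝ → ℝ → ℝ} (h : Vel u) (hX : Flow u X)
    (t α : ℝ) (ht : 0 ≤ t) : HasDerivAt (fun β => lam u X t β) (lma u X t α) α := by
  have hv1 : Vel (px u) := h.px
  have hv2 : Vel (px (px u)) := hv1.px
  obtain ⟨K1, hK1, hb1⟩ := hv1.bdd
  obtain ⟨K2, hK2, hb2⟩ := hv2.bdd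
  have hlam : ∀ s β : ℝ, lam u X s β ≤ K1 * |s| := by
    intro s β
    have h5 : ‖∫ r in (0:ℝ)..s, px u (r, X r β)‖ ≤ K1 * |s - 0| :=
      intervalIntegral.norm_integral_le_of_norm_le_const
        (fun r _ => by rw [Real.norm_eq_abs]; exact hb1 _)
    rw [sub_zero, Real.norm_eq_abs] at h5
    exact (le_abs_self _).trans h5
  have hc1 : ∀ β : ℝ, Continuous fun s : ℝ => px u (s, X s β) := by
    intro β
    have h1 : Continuous (px u) := (smooth_px u h.sm).continuous
    have h2 : Continuous fun s : ℝ => X s β :=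
      (Flow.cont h hX).comp (continuous_id.prodMk continuous_const)
    exact h1.comp (continuous_id.prodMk h2)
  have hc2 : ∀ β : ℝ, Continuous fun s : ℝ =>
      px (px u) (s, X s β) * Real.exp (lam u X s β) := by
    intro β
    have h1 : Continuous (px (px u)) := (smooth_px _ (smooth_px u h.sm)).continuous
    have h2 : Continuous fun s : ℝ => X s β :=
      (Flow.cont h hX).comp (continuous_id.prodMk continuous_const)
    have h3 : Continuous fun s : ℝ => lam u X s β :=
      (lam_cont h hX).comp (continuous_id.prodMk continuous_const)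
    exact (h1.comp (continuous_id.prodMk h2)).mul (Real.continuous_exp.comp h3)
  have hmain := intervalIntegral.hasDerivAt_integral_of_dominated_loc_of_deriv_le
    (μ := volume) (a := 0) (b := t) (bound := fun s => K2 * Real.exp (K1 * |s|))
    (F := fun β s => px u (s, X s β))
    (F' := fun β s => px (px u) (s, X s β) * Real.exp (lam u X s β)) (x₀ := α)
    (s := Set.univ) Filter.univ_mem
    (Filter.Eventually.of_forall fun β => (hc1 β).aestronglyMeasurable)
    ((hc1 α).intervalIntegrable _ _) (hc2 α).aestronglyMeasurable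
    (Filter.Eventually.of_forall fun s _ β _ => by
      rw [norm_mul, Real.norm_eq_abs, Real.norm_eq_abs, Real.abs_exp]
      exact mul_le_mul (hb2 _) (Real.exp_le_exp.2 (hlam s β)) (Real.exp_pos _).le hK2)
    ((continuous_const.mul (Real.continuous_exp.comp
      (continuous_const.mul continuous_abs))).intervalIntegrable _ _)
    (Filter.Eventually.of_forall fun s hs β _ => by
      rw [uIoc_of_le ht] at hs
      exact (hasDerivAt_px (px u) (smooth_px u h.sm) s (X s β)).comp β
        (Flow.hasDerivAt_label h hX s β hs.1.le))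
  exact hmain.2

lemma lma_cont {u : ℝ × ℝ → ℝ} {X : ℝ → ℝ → ℝ} (h : Vel u) (hX : Flow u X) :
    Continuous fun p : ℝ × ℝ => lma u X p.1 p.2 := by
  have h1 : Continuous (px (px u)) := (smooth_px _ (smooth_px u h.sm)).continuous
  have h2 : Continuous fun p : (ℝ × ℝ) × ℝ => X p.2 p.1.2 :=
    (Flow.cont h hX).comp (continuous_snd.prodMk (continuous_snd.comp continuous_fst))
  have h3 : Continuous fun p : (ℝ × ℝ) × ℝ => lam u X p.2 p.1.2 :=
    (lam_cont h hX).comp (continuous_snd.prodMk (continuous_snd.comp continuous_fst))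
  have h4 : Continuous fun p : (ℝ × ℝ) × ℝ =>
      px (px u) (p.2, X p.2 p.1.2) * Real.exp (lam u X p.2 p.1.2) :=
    (h1.comp (continuous_snd.prodMk h2)).mul (Real.continuous_exp.comp h3)
  exact intervalIntegral.continuous_parametric_intervalIntegral_of_continuous h4 continuous_fst

lemma lam_per {u : ℝ × ℝ → ℝ} {X : ℝ → ℝ → ℝ} (h : Vel u) (hX : Flow u X) (t α : ℝ) :
    lam u X t (α + 2 * π) = lam u X t α := by
  unfold lam
  refine intervalIntegral.integral_congr fun s _ => ?_
  show px u (s, X s (α + 2 * π)) = px u (s, X s α)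
  rw [Flow.per h hX, h.px.per]

lemma lma_per {u : ℝ × ℝ → ℝ} {X : ℝ → ℝ → ℝ} (h : Vel u) (hX : Flow u X) (t α : ℝ) :
    lma u X t (α + 2 * π) = lma u X t α := by
  unfold lma
  refine intervalIntegral.integral_congr fun s _ => ?_
  show px (px u) (s, X s (α + 2 * π)) * Real.exp (lam u X s (α + 2 * π)) =
    px (px u) (s, X s α) * Real.exp (lam u X s α)
  rw [Flow.per h hX, h.px.px.per, lam_per h hX]

end Pool.Agent.H45.FL
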