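import Pool.Agent.H45.FL.Lma
import Pool.Agent.H45.FL.Cut

/-! JOB FL-06 (uses the stubs of the imported files).  Transport of the vorticity.

* `w_along`: `g s = w (s, X s α) * exp(-lam s α)` has derivative
  `(w_t + u w_x - w u_x) exp(-lam) = 0` (`hasDerivAt_along`, `Flow.ode`, `lam_hasDerivAt_t`), so
  `g t = g 0 = w (0, α)` (`is_const_of_deriv_eq_zero`).
* `wx_along` (`t ≥ 0`): differentiate `w (t, X t β) = w0 β * exp(lam t β)` in `β`:
  `w_x(t,X) exp(lam) = w0' exp(lam) + w0 lma exp(lam)`.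
* `int_conserved`: `∫_0^{2π} w(t,x) dx` for `t ≥ 0`: substitution `x = X t α`
  (`intervalIntegral.integral_comp_mul_deriv`) gives `∫_{X t 0}^{X t 2π} w(t,x) dx
  = ∫_0^{2π} w0 α exp(2 lam t α) dα`; alternatively differentiate under the integral:
  `d/dt ∫ w = ∫ (w u_x - u w_x) = 2 ∫ w u_x`, which is zero only if `∫ w u_x = 0`; this uses
  `u_x = H w`; so here only the change of variables formula `chg` is stated. -/

set_option autoImplicit false
open Real Set MeasureTheory

namespace Pool.Agent.H45.FL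

theorem Transport_deriv {w u : ℝ × ℝ → ℝ} {X : ℝ → ℝ → ℝ} (h : CSol w u) (hX : Flow u X)
    (α t : ℝ) :
    HasDerivAt (fun s => w (s, X s α) * Real.exp (-lam u X s α)) 0 t := by
  have h1 := hasDerivAt_along w h.sm (fun s => X s α) (u (t, X t α)) t (hX.ode t α)
  have h2 := (lam_hasDerivAt_t h.vel hX t α).neg.exp
  have h3 := h1.mul h2
  refine h3.congr_deriv ?_
  have h4 := h.pde (t, X t α)
  linear_combination (Real.exp (-lam u X t α)) * h4

theorem w_along {w u : ℝ × ℝ → ℝ} {X : ℝ → ℝ → ℝ} (h : CSol w u) (hX : Flow u X) (t α : ℝ) :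
    w (t, X t α) = w (0, α) * Real.exp (lam u X t α) := by
  have h1 := is_const_of_deriv_eq_zero
    (f := fun s => w (s, X s α) * Real.exp (-lam u X s α))
    (fun s => (Transport_deriv h hX α s).differentiableAt)
    (fun s => (Transport_deriv h hX α s).deriv) t 0
  have h2 : w (t, X t α) * Real.exp (-lam u X t α) = w (0, α) := by
    have h3 : w (0, X 0 α) * Real.exp (-lam u X 0 α) = w (0, α) := by
      rw [hX.init, lam_zero, neg_zero, Real.exp_zero, mul_one]
    rw [← h3]
    exact h1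
  rw [← h2, mul_assoc, ← Real.exp_add, neg_add_cancel, Real.exp_zero, mul_one]

theorem wx_along {w u : ℝ × ℝ → ℝ} {X : ℝ → ℝ → ℝ} (h : CSol w u) (hX : Flow u X) (t α : ℝ)
    (ht : 0 ≤ t) : px w (t, X t α) = px w (0, α) + w (0, α) * lma u X t α := by
  have h1 : HasDerivAt (fun β => w (t, X t β))
      (px w (t, X t α) * Real.exp (lam u X t α)) α :=
    HasDerivAt.comp α (hasDerivAt_px w h.sm t (X t α)) (Flow.hasDerivAt_label h.vel hX t α ht)
  have h2 : HasDerivAt (fun β => w (0, β) * Real.exp (lam u X t β))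
      (px w (0, α) * Real.exp (lam u X t α) +
        w (0, α) * (Real.exp (lam u X t α) * lma u X t α)) α :=
    (hasDerivAt_px w h.sm 0 α).mul (lam_hasDerivAt_label h.vel hX t α ht).exp
  have h3 : (fun β => w (t, X t β)) = fun β => w (0, β) * Real.exp (lam u X t β) := by
    funext β
    exact w_along h hX t β
  rw [h3] at h1
  have h4 := h1.unique h2
  have h5 : Real.exp (lam u X t α) ≠ 0 := Real.exp_ne_zero _
  apply mul_right_cancel₀ h5
  rw [h4]
  ring

/-- change of variables, `t ≥ 0`, over one period starting at an arbitrary label -/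
theorem chg {w u : ℝ × ℝ → ℝ} {X : ℝ → ℝ → ℝ} (h : CSol w u) (hX : Flow u X) (t : ℝ)
    (ht : 0 ≤ t) (f : ℝ → ℝ) (hf : Continuous f) (α β : ℝ) :
    ∫ x in (X t α)..(X t β), f x = ∫ y in α..β, f (X t y) * Real.exp (lam u X t y) := by
  have hc : Continuous fun y => Real.exp (lam u X t y) :=
    Real.continuous_exp.comp ((lam_cont h.vel hX).comp (continuous_const.prodMk continuous_id))
  have h1 := intervalIntegral.integral_comp_mul_deriv (a := α) (b := β) (f := fun y => X t y)
    (f' := fun y => Real.exp (lam u X t y)) (g := f)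
    (fun y _ => Flow.hasDerivAt_label h.vel hX t y ht) hc.continuousOn hf
  exact h1.symm

/-- sign pattern: negative between the zeros `e < c`, positive between `c` and `e + 2π` -/
theorem signs {w u : ℝ × ℝ → ℝ} {X : ℝ → ℝ → ℝ} (h : CSol w u) (hX : Flow u X) (e c : ℝ)
    (ze : w (0, e) = 0) (zc : w (0, c) = 0) (neg : ∀ x ∈ Ioo e c, w (0, x) < 0)
    (pos : ∀ x ∈ Ioo c (e + 2 * π), 0 < w (0, x)) (t : ℝ) :
    w (t, X t e) = 0 ∧ w (t, X t c) = 0 ∧ (∀ x ∈ Ioo (X t e) (X t c), w (t, x) < 0) ∧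
      (∀ x ∈ Ioo (X t c) (X t e + 2 * π), 0 < w (t, x)) := by
  have hm := Flow.mono h.vel hX t
  refine ⟨?_, ?_, ?_, ?_⟩
  · rw [w_along h hX, ze, zero_mul]
  · rw [w_along h hX, zc, zero_mul]
  · intro x hx
    obtain ⟨α, rfl⟩ := Flow.surj h.vel hX t x
    rw [w_along h hX]
    exact mul_neg_of_neg_of_pos (neg α ⟨hm.lt_iff_lt.1 hx.1, hm.lt_iff_lt.1 hx.2⟩)
      (Real.exp_pos _)
  · intro x hx
    obtain ⟨α, rfl⟩ := Flow.surj h.vel hX t x
    rw [← Flow.per h.vel hX] at hx
    rw [w_along h hX]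
    exact mul_pos (pos α ⟨hm.lt_iff_lt.1 hx.1, hm.lt_iff_lt.1 hx.2⟩) (Real.exp_pos _)

/-- the slopes at the zeros are conserved -/
theorem slope {w u : ℝ × ℝ → ℝ} {X : ℝ → ℝ → ℝ} (h : CSol w u) (hX : Flow u X) (e t : ℝ)
    (ze : w (0, e) = 0) (ht : 0 ≤ t) : px w (t, X t e) = px w (0, e) := by
  rw [wx_along h hX t e ht, ze, zero_mul, add_zero]

end Pool.Agent.H45.FL
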