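import Pool.Agent.H45.FL.Basic

/-! JOB FL-01.  Elementary facts on `Vel`.

* `Vel.px`: `px u p = fderiv ℝ u p (0,1)` (chain rule with `y ↦ (p.1, y)`), hence smooth
  (`ContDiff.fderiv_right`, `.clm_apply`); periodicity and support from those of `u`.
* `Vel.hasDerivAt_x`: `y ↦ u (t,y)` is differentiable.
* `Vel.bdd`: `u` is bounded on the compact set `[-M,M] × [0,2π]` (`IsCompact.exists_bound_of_continuousOn`),
  zero for `|t| ≥ M`, periodic in `x` (`Function.Periodic`: `toIcoMod`, or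
  `Function.Periodic.exists_mem_Ico₀`).
* `Vel.lip_x`: mean value inequality with a bound of `px u`.
* `Vel.taylor`: `|u(t,y) - u(t,x) - u_x(t,x)(y-x)| ≤ K (y-x)²` from the mean value inequality
  applied twice (`g y = u(t,y) - u(t,x) - u_x(t,x)(y-x)`, `|g'(y)| ≤ K₂ |y-x|`). -/

set_option autoImplicit false
open Real Set MeasureTheory

namespace Pool.Agent.H45.FL

lemma h58_hasDerivAt_x (u : ℝ × ℝ → ℝ) (h : ContDiff ℝ ((⊤ : ℕ∞) : WithTop ℕ∞) u) (t x : ℝ) :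
    HasDerivAt (fun y => u (t, y)) (fderiv ℝ u (t, x) (0, 1)) x := by
  have h1 : DifferentiableAt ℝ u (t, x) := (contDiff_infty_iff_fderiv.mp h).1 (t, x)
  have h2 : HasDerivAt (fun y : ℝ => (t, y)) ((0 : ℝ), (1 : ℝ)) x :=
    (hasDerivAt_const x t).prodMk (hasDerivAt_id x)
  exact h1.hasFDerivAt.comp_hasDerivAt x h2

lemma h58_hasDerivAt_t (u : ℝ × ℝ → ℝ) (h : ContDiff ℝ ((⊤ : ℕ∞) : WithTop ℕ∞) u) (t x : ℝ) :
    HasDerivAt (fun s => u (s, x)) (fderiv ℝ u (t, x) (1, 0)) t := by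
  have h1 : DifferentiableAt ℝ u (t, x) := (contDiff_infty_iff_fderiv.mp h).1 (t, x)
  have h2 : HasDerivAt (fun s : ℝ => (s, x)) ((1 : ℝ), (0 : ℝ)) t :=
    (hasDerivAt_id t).prodMk (hasDerivAt_const t x)
  exact h1.hasFDerivAt.comp_hasDerivAt t h2

lemma h58_px_eq (u : ℝ × ℝ → ℝ) (h : ContDiff ℝ ((⊤ : ℕ∞) : WithTop ℕ∞) u) :
    px u = fun p => fderiv ℝ u p (0, 1) :=
  funext fun p => (h58_hasDerivAt_x u h p.1 p.2).deriv

lemma h58_pt_eq (u : ℝ × ℝ → ℝ) (h : ContDiff ℝ ((⊤ : ℕ∞) : WithTop ℕ∞) u) :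
    pt u = fun p => fderiv ℝ u p (1, 0) :=
  funext fun p => (h58_hasDerivAt_t u h p.1 p.2).deriv

lemma smooth_px (u : ℝ × ℝ → ℝ) (h : ContDiff ℝ ((⊤ : ℕ∞) : WithTop ℕ∞) u) :
    ContDiff ℝ ((⊤ : ℕ∞) : WithTop ℕ∞) (px u) := by
  rw [h58_px_eq u h]
  exact (contDiff_infty_iff_fderiv.mp h).2.clm_apply contDiff_const

lemma smooth_pt (u : ℝ × ℝ → ℝ) (h : ContDiff ℝ ((⊤ : ℕ∞) : WithTop ℕ∞) u) :
    ContDiff ℝ ((⊤ : ℕ∞) : WithTop ℕ∞) (pt u) := by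
  rw [h58_pt_eq u h]
  exact (contDiff_infty_iff_fderiv.mp h).2.clm_apply contDiff_const

lemma Vel.px {u : ℝ × ℝ → ℝ} (h : Vel u) : Vel (px u) := by
  refine ⟨smooth_px u h.sm, fun t x => ?_, ?_⟩
  · have h1 : (fun y => u (t, y)) = fun y => u (t, y + 2 * π) := funext fun y => (h.per t y).symm
    have h2 : deriv (fun y => u (t, y + 2 * π)) x = deriv (fun y => u (t, y)) (x + 2 * π) :=
      deriv_comp_add_const (f := fun y => u (t, y)) (2 * π) x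
    change deriv (fun y => u (t, y)) (x + 2 * π) = deriv (fun y => u (t, y)) x
    rw [← h2, ← h1]
  · obtain ⟨M, hM⟩ := h.supp
    refine ⟨M, fun t x ht => ?_⟩
    have h1 : (fun y => u (t, y)) = fun _ => 0 := funext fun y => hM t y ht
    change deriv (fun y => u (t, y)) x = 0
    rw [h1, deriv_const]

lemma h58_Vel_pt {u : ℝ × ℝ → ℝ} (h : Vel u) : Vel (pt u) := by
  refine ⟨smooth_pt u h.sm, fun t x => ?_, ?_⟩
  · have h1 : (fun s => u (s, x + 2 * π)) = fun s => u (s, x) := funext fun s => h.per s x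
    change deriv (fun s => u (s, x + 2 * π)) t = deriv (fun s => u (s, x)) t
    rw [h1]
  · obtain ⟨M, hM⟩ := h.supp
    refine ⟨M + 1, fun t x ht => ?_⟩
    have h0 : M < |t| := by linarith
    have h1 : (fun s => u (s, x)) =ᶠ[nhds t] fun _ => 0 := by
      filter_upwards [(continuous_abs.tendsto t).eventually_const_lt h0] with s hs
      exact hM s x hs.le
    change deriv (fun s => u (s, x)) t = 0
    rw [h1.deriv_eq, deriv_const]

lemma hasDerivAt_px (u : ℝ × ℝ → ℝ) (h : ContDiff ℝ ((⊤ : ℕ∞) : WithTop ℕ∞) u) (t x : ℝ) :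
    HasDerivAt (fun y => u (t, y)) (FL.px u (t, x)) x := by
  rw [h58_px_eq u h]
  exact h58_hasDerivAt_x u h t x

/-- chain rule along a curve -/
lemma hasDerivAt_along (w : ℝ × ℝ → ℝ) (h : ContDiff ℝ ((⊤ : ℕ∞) : WithTop ℕ∞) w) (γ : ℝ → ℝ)
    (v t : ℝ) (hγ : HasDerivAt γ v t) :
    HasDerivAt (fun s => w (s, γ s)) (pt w (t, γ t) + FL.px w (t, γ t) * v) t := by
  have h1 : DifferentiableAt ℝ w (t, γ t) := (contDiff_infty_iff_fderiv.mp h).1 (t, γ t)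
  have h2 : HasDerivAt (fun s : ℝ => (s, γ s)) ((1 : ℝ), v) t :=
    (hasDerivAt_id t).prodMk hγ
  have h3 := h1.hasFDerivAt.comp_hasDerivAt t h2
  have h4 : fderiv ℝ w (t, γ t) (1, v) = pt w (t, γ t) + FL.px w (t, γ t) * v := by
    rw [h58_px_eq w h, h58_pt_eq w h]
    have e : ((1 : ℝ), v) = (1, 0) + v • ((0 : ℝ), (1 : ℝ)) := by
      ext <;> simp
    rw [e, map_add, map_smul, smul_eq_mul, mul_comm]
  rw [← h4]
  exact h3

lemma Vel.bdd {u : ℝ × ℝ → ℝ} (h : Vel u) : ∃ K : ℝ, 0 ≤ K ∧ ∀ p, |u p| ≤ K := by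
  obtain ⟨M, hM⟩ := h.supp
  have hc : IsCompact (Icc (-M) M ×ˢ Icc (0 : ℝ) (2 * π)) := isCompact_Icc.prod isCompact_Icc
  obtain ⟨C, hC⟩ := hc.exists_bound_of_continuousOn h.sm.continuous.continuousOn
  refine ⟨max C 0, le_max_right _ _, fun p => ?_⟩
  obtain ⟨t, x⟩ := p
  rcases le_or_gt M |t| with ht | ht
  · rw [hM t x ht, abs_zero]; exact le_max_right _ _
  · have hper : Function.Periodic (fun y => u (t, y)) (2 * π) := fun y => h.per t y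
    obtain ⟨y, hy, hxy⟩ := hper.exists_mem_Ico₀ (by positivity) x
    rw [hxy]
    have ht' := abs_lt.mp ht
    exact (hC (t, y) ⟨⟨ht'.1.le, ht'.2.le⟩, ⟨hy.1, hy.2.le⟩⟩).trans (le_max_left _ _)

lemma Vel.lip_x {u : ℝ × ℝ → ℝ} (h : Vel u) :
    ∃ K : ℝ, 0 ≤ K ∧ ∀ t x y : ℝ, |u (t, y) - u (t, x)| ≤ K * |y - x| := by
  obtain ⟨K, hK0, hK⟩ := h.px.bdd
  refine ⟨K, hK0, fun t x y => ?_⟩
  exact Convex.norm_image_sub_le_of_norm_hasDerivWithin_le (f := fun y => u (t, y))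
    (f' := fun y => FL.px u (t, y)) (s := univ)
    (fun z _ => (hasDerivAt_px u h.sm t z).hasDerivWithinAt) (fun z _ => hK (t, z)) convex_univ
    (mem_univ _) (mem_univ _)

lemma Vel.taylor {u : ℝ × ℝ → ℝ} (h : Vel u) :
    ∃ K : ℝ, 0 ≤ K ∧ ∀ t x y : ℝ,
      |u (t, y) - u (t, x) - FL.px u (t, x) * (y - x)| ≤ K * (y - x) ^ 2 := by
  obtain ⟨K, hK0, hK⟩ := h.px.lip_x
  refine ⟨K, hK0, fun t x y => ?_⟩
  have h1 : ∀ z ∈ uIcc x y, HasDerivWithinAt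
      (fun z => u (t, z) - u (t, x) - FL.px u (t, x) * (z - x))
      (FL.px u (t, z) - FL.px u (t, x)) (uIcc x y) z := by
    intro z _
    have h2 := ((hasDerivAt_px u h.sm t z).sub_const (u (t, x))).sub
      (((hasDerivAt_id z).sub_const x).const_mul (FL.px u (t, x)))
    rw [mul_one] at h2
    exact h2.hasDerivWithinAt
  have h2 : ∀ z ∈ uIcc x y, ‖FL.px u (t, z) - FL.px u (t, x)‖ ≤ K * |y - x| := by
    intro z hz
    refine (hK t x z).trans ?_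
    have h3 : |z - x| ≤ |y - x| := abs_sub_left_of_mem_uIcc hz
    gcongr
  have h3 := Convex.norm_image_sub_le_of_norm_hasDerivWithin_le h1 h2 (convex_uIcc x y)
    left_mem_uIcc right_mem_uIcc
  simp only [sub_self, mul_zero, sub_zero, Real.norm_eq_abs] at h3
  refine h3.trans (le_of_eq ?_)
  rw [mul_assoc, ← sq, sq_abs]

/-- `u` is Lipschitz in both variables -/
lemma Vel.lipschitz {u : ℝ × ℝ → ℝ} (h : Vel u) : ∃ K : NNReal, LipschitzWith K u := by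
  obtain ⟨K1, hK10, hK1⟩ := h.px.bdd
  obtain ⟨K2, hK20, hK2⟩ := (h58_Vel_pt h).bdd
  have hd : Differentiable ℝ u := (contDiff_infty_iff_fderiv.mp h.sm).1
  refine ⟨⟨K1 + K2, by positivity⟩, lipschitzWith_of_nnnorm_fderiv_le (𝕜 := ℝ) hd fun p => ?_⟩
  rw [← NNReal.coe_le_coe, coe_nnnorm]
  change ‖fderiv ℝ u p‖ ≤ K1 + K2
  refine ContinuousLinearMap.opNorm_le_bound _ (by positivity) fun v => ?_
  obtain ⟨a, b⟩ := v
  have e : ((a, b) : ℝ × ℝ) = a • ((1 : ℝ), (0 : ℝ)) + b • ((0 : ℝ), (1 : ℝ)) := by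
    ext <;> simp
  have h1 : fderiv ℝ u p (a, b) = a * pt u p + b * FL.px u p := by
    rw [h58_px_eq u h.sm, h58_pt_eq u h.sm, e, map_add, map_smul, map_smul, smul_eq_mul,
      smul_eq_mul]
  have ha : |a| ≤ ‖((a, b) : ℝ × ℝ)‖ := norm_fst_le (a, b)
  have hb : |b| ≤ ‖((a, b) : ℝ × ℝ)‖ := norm_snd_le (a, b)
  rw [h1, Real.norm_eq_abs]
  have h2 := hK1 p
  have h3 := hK2 p
  calc |a * pt u p + b * FL.px u p| ≤ |a| * |pt u p| + |b| * |FL.px u p| := by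
        rw [← abs_mul, ← abs_mul]; exact abs_add_le _ _
    _ ≤ ‖((a, b) : ℝ × ℝ)‖ * K2 + ‖((a, b) : ℝ × ℝ)‖ * K1 := by gcongr
    _ = _ := by ring

end Pool.Agent.H45.FL
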